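import Pool.Agent.Helper26.PE.Defs

/-!
# QS: a chain of divisions

`λ(⌊w / q⌋ + 1) = λ(q) λ(w + 1)` for all `q ≤ 5 X` and nearly all `w` in `[X W / 2, 20 X W]`, `W ≤ X ^ b`, is impossible.
The `2 ^ (b + 1)` numbers `n, .., n + 2 ^ (b + 1) - 1` are paired by the sequence of Thue and Morse; the product of the quotients is
`1 + O(n ^ (- b - 1))`, so the chain `p ↦ p x / y` returns to the cell of its starting point and the product of the `λ(n + j)` is `1`.
So `λ` has the period `2 ^ (b + 1)` on `[X, 4 X)`, against `λ(2 n) = - λ(n)`.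
-/

set_option autoImplicit false

namespace Pool.Agent.Helper21.QS

open Finset
open Pool.Agent.Helper26.PE (la la_mul la_prime la_one la_sq la_eq la_abs)

/-- the quotient of a pair -/
noncomputable def rt (c : ℕ × ℕ) : ℝ := (c.1 : ℝ) / c.2

theorem chain_list {Hit : Set ℕ} {Q : ℕ}
    (hH : ∀ w ∈ Hit, ∀ q : ℕ, 1 ≤ q → q ≤ Q → la (w / q + 1) = la q * la (w + 1)) :
    ∀ (L : List (ℕ × ℕ)) (t : ℝ),
      (∀ c ∈ L, 1 ≤ c.1 ∧ c.1 ≤ Q ∧ 1 ≤ c.2 ∧ c.2 ≤ Q) →
      (∀ (L1 : List (ℕ × ℕ)) (c : ℕ × ℕ) (L2 : List (ℕ × ℕ)), L = L1 ++ c :: L2 →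
        ⌊t * (L1.map rt).prod * (c.1 : ℝ)⌋₊ ∈ Hit) →
      la (⌊t * (L.map rt).prod⌋₊ + 1) =
        (L.map fun c => la c.1 * la c.2).prod * la (⌊t⌋₊ + 1) := by
  intro L
  induction L with
  | nil => intro t _ _; simp
  | cons c L ih =>
    intro t hL hhit
    obtain ⟨h1, h2, h3, h4⟩ := hL c List.mem_cons_self
    have hw := hhit [] c L rfl
    simp only [List.map_nil, List.prod_nil, mul_one] at hw
    have c1 : (c.1 : ℝ) ≠ 0 := by
      have : c.1 ≠ 0 := by omega
      exact_mod_cast this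
    have e1 : ⌊t * (c.1 : ℝ)⌋₊ / c.1 = ⌊t⌋₊ := by
      rw [← Nat.floor_div_natCast, mul_div_assoc, div_self c1, mul_one]
    have e2 : ⌊t * (c.1 : ℝ)⌋₊ / c.2 = ⌊t * rt c⌋₊ := by
      rw [← Nat.floor_div_natCast, mul_div_assoc]
      rfl
    have f1 := hH _ hw c.1 h1 h2
    have f2 := hH _ hw c.2 h3 h4
    rw [e1] at f1
    rw [e2] at f2
    have f3 := ih (t * rt c) (fun d hd => hL d (List.mem_cons_of_mem _ hd))
      (fun L1 d L2 hL' => by
        have h5 := hhit (c :: L1) d L2 (by rw [hL']; rfl)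
        rwa [List.map_cons, List.prod_cons, ← mul_assoc] at h5)
    rw [List.map_cons, List.prod_cons, ← mul_assoc, f3, f2, List.map_cons, List.prod_cons, f1]
    have h5 := la_sq c.1
    linear_combination (-(L.map fun c => la c.1 * la c.2).prod * la c.2 *
      la (⌊t * (c.1 : ℝ)⌋₊ + 1)) * h5

/-- the pairs -/
def PB : ℕ → ℕ → List (ℕ × ℕ)
  | 0, n => [(n, n + 1)]
  | b + 1, n => PB b n ++ (PB b (n + 2 ^ (b + 1))).map Prod.swap

theorem length_PB (b n : ℕ) : (PB b n).length = 2 ^ b := by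
  induction b generalizing n with
  | zero => rfl
  | succ b ih =>
    rw [PB, List.length_append, List.length_map, ih, ih]
    ring

theorem mem_PB (b n : ℕ) (c : ℕ × ℕ) (hc : c ∈ PB b n) :
    n ≤ c.1 ∧ c.1 < n + 2 ^ (b + 1) ∧ n ≤ c.2 ∧ c.2 < n + 2 ^ (b + 1) := by
  induction b generalizing n c with
  | zero =>
    rw [PB, List.mem_singleton] at hc
    subst hc
    norm_num
  | succ b ih =>
    rw [PB, List.mem_append, List.mem_map] at hc
    have e : 2 ^ (b + 1 + 1) = 2 ^ (b + 1) + 2 ^ (b + 1) := by ring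
    rcases hc with hc | ⟨d, hd, rfl⟩
    · have := ih n c hc
      omega
    · have := ih _ d hd
      simp only [Prod.fst_swap, Prod.snd_swap]
      omega

theorem la_PB (b n : ℕ) : ((PB b n).map fun c => la c.1 * la c.2).prod =
    ∏ j ∈ range (2 ^ (b + 1)), la (n + j) := by
  induction b generalizing n with
  | zero =>
    rw [PB]
    simp [prod_range_succ]
  | succ b ih =>
    rw [PB, List.map_append, List.prod_append, ih, List.map_map]
    have e : 2 ^ (b + 1 + 1) = 2 ^ (b + 1) + 2 ^ (b + 1) := by ring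
    rw [e, prod_range_add]
    congr 1
    have h1 : ((fun c : ℕ × ℕ => la c.1 * la c.2) ∘ Prod.swap) = fun c => la c.1 * la c.2 := by
      funext c
      simp only [Function.comp_apply, Prod.fst_swap, Prod.snd_swap]
      ring
    rw [h1, ih]
    refine prod_congr rfl fun j _ => ?_
    rw [add_assoc]

/-- iterated differences with the steps `1, 2, 4, ..` -/
noncomputable def T : ℕ → (ℝ → ℝ) → ℝ → ℝ
  | 0, f, x => f x - f (x + 1)
  | b + 1, f, x => T b f x - T b f (x + 2 ^ (b + 1))

theorem log_PB (b n : ℕ) (hn : 1 ≤ n) : 0 < ((PB b n).map rt).prod ∧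
    Real.log ((PB b n).map rt).prod = T b Real.log n := by
  induction b generalizing n with
  | zero =>
    have h1 : (0 : ℝ) < n := by exact_mod_cast hn
    rw [PB]
    simp only [List.map_cons, List.map_nil, List.prod_cons, List.prod_nil, mul_one, rt, T]
    push_cast
    exact ⟨by positivity, Real.log_div h1.ne' (by positivity)⟩
  | succ b ih =>
    obtain ⟨h1, h2⟩ := ih n hn
    obtain ⟨h3, h4⟩ := ih (n + 2 ^ (b + 1)) (hn.trans (Nat.le_add_right _ _))
    have h5 : (((PB b (n + 2 ^ (b + 1))).map Prod.swap).map rt).prod =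
        (((PB b (n + 2 ^ (b + 1))).map rt).prod)⁻¹ := by
      rw [List.map_map, List.prod_inv, List.map_map]
      congr 1
      refine List.map_congr_left fun c _ => ?_
      simp only [Function.comp_apply, rt, Prod.fst_swap, Prod.snd_swap]
      rw [inv_div]
    rw [PB, List.map_append, List.prod_append, h5]
    refine ⟨mul_pos h1 (inv_pos.2 h3), ?_⟩
    rw [Real.log_mul h1.ne' (inv_pos.2 h3).ne', Real.log_inv, h2, h4, T]
    push_cast
    ring

theorem T_sub (b : ℕ) (f g : ℝ → ℝ) (x : ℝ) :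
    T b (fun u => f u - g u) x = T b f x - T b g x := by
  induction b generalizing x with
  | zero => simp only [T]; ring
  | succ b ih =>
    rw [T, T, T, ih, ih]
    ring

theorem T_shift (b : ℕ) (f : ℝ → ℝ) (c x : ℝ) :
    T b (fun u => f (u + c)) x = T b f (x + c) := by
  induction b generalizing x with
  | zero =>
    simp only [T]
    rw [add_right_comm]
  | succ b ih =>
    rw [T, T, ih, ih, add_right_comm]

theorem T_poly (b : ℕ) (P : Polynomial ℝ) (hP : P.natDegree ≤ b) (x : ℝ) :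
    T b (fun u => P.eval u) x = 0 := by
  induction b generalizing P x with
  | zero =>
    rw [Polynomial.eq_C_of_natDegree_le_zero hP]
    simp [T]
  | succ b ih =>
    obtain ⟨c, hc⟩ : ∃ c : ℝ, c = 2 ^ (b + 1) := ⟨_, rfl⟩
    have h1 : T (b + 1) (fun u => P.eval u) x =
        T b (fun u => (P - Polynomial.taylor c P).eval u) x := by
      have h2 : (fun u => (P - Polynomial.taylor c P).eval u) =
          fun u => P.eval u - P.eval (u + c) := by
        funext u
        rw [Polynomial.eval_sub, Polynomial.taylor_eval]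
      rw [h2, T_sub b (fun u => P.eval u) (fun u => P.eval (u + c)),
        T_shift b (fun u => P.eval u) c x, T, hc]
    rw [h1]
    apply ih
    by_cases h0 : P = 0
    · rw [h0]
      simp
    · have h3 : (P - Polynomial.taylor c P).degree < P.degree :=
        Polynomial.degree_sub_lt_left (Polynomial.degree_taylor P c).symm h0
          (Polynomial.leadingCoeff_taylor c P).symm
      by_cases h4 : P - Polynomial.taylor c P = 0
      · rw [h4]
        simp
      · have h5 := Polynomial.natDegree_lt_natDegree h4 h3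
        omega

theorem T_bound (b : ℕ) (f : ℝ → ℝ) (x M : ℝ)
    (h : ∀ u, x ≤ u → u ≤ x + 2 ^ (b + 1) → |f u| ≤ M) : |T b f x| ≤ 2 ^ (b + 1) * M := by
  induction b generalizing x with
  | zero =>
    rw [T]
    have h1 := h x le_rfl (by norm_num)
    have h2 := h (x + 1) (by linarith) (by norm_num)
    have h3 := abs_sub (f x) (f (x + 1))
    rw [zero_add, pow_one]
    linarith
  | succ b ih =>
    rw [T]
    have e : (2 : ℝ) ^ (b + 1 + 1) = 2 ^ (b + 1) + 2 ^ (b + 1) := by ring
    have hp : (0 : ℝ) < 2 ^ (b + 1) := by positivity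
    have h1 := ih x (fun u h1 h2 => h u h1 (by rw [e]; linarith))
    have h2 := ih (x + 2 ^ (b + 1)) (fun u h1 h2 => h u (by linarith) (by rw [e]; linarith))
    have h3 := abs_sub (T b f x) (T b f (x + 2 ^ (b + 1)))
    rw [e, add_mul]
    linarith

theorem T_log (b : ℕ) (x : ℝ) (hx : 2 * 2 ^ (b + 1) ≤ x) :
    |T b Real.log x| ≤ 2 ^ (b + 1) * (2 * (2 ^ (b + 1) / x) ^ (b + 1)) := by
  have hp : (0 : ℝ) < 2 ^ (b + 1) := by positivity
  have hx0 : 0 < x := by linarith
  obtain ⟨Y, hY⟩ : ∃ Y : Polynomial ℝ,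
      Y = Polynomial.C (1 / x) * (Polynomial.C x - Polynomial.X) := ⟨_, rfl⟩
  obtain ⟨P, hPdef⟩ : ∃ P : Polynomial ℝ, P = Polynomial.C (Real.log x) -
      ∑ i ∈ range b, Polynomial.C (1 / ((i : ℝ) + 1)) * Y ^ (i + 1) := ⟨_, rfl⟩
  have hYd : Y.natDegree ≤ 1 := by
    rw [hY]
    refine (Polynomial.natDegree_C_mul_le _ _).trans ?_
    refine (Polynomial.natDegree_sub_le _ _).trans ?_
    rw [Polynomial.natDegree_C, Polynomial.natDegree_X]
    exact le_rfl
  have hPd : P.natDegree ≤ b := by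
    rw [hPdef]
    refine (Polynomial.natDegree_sub_le _ _).trans ?_
    rw [Polynomial.natDegree_C]
    refine max_le (Nat.zero_le _) ?_
    refine Polynomial.natDegree_sum_le_of_forall_le _ _ fun i hi => ?_
    refine (Polynomial.natDegree_C_mul_le _ _).trans ?_
    refine (Polynomial.natDegree_pow_le_of_le (i + 1) hYd).trans ?_
    have := mem_range.1 hi
    omega
  have hYe : ∀ u, Y.eval u = (x - u) / x := by
    intro u
    rw [hY]
    simp only [Polynomial.eval_mul, Polynomial.eval_C, Polynomial.eval_sub, Polynomial.eval_X]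
    ring
  have hPe : ∀ u, P.eval u = Real.log x -
      ∑ i ∈ range b, ((x - u) / x) ^ (i + 1) / ((i : ℝ) + 1) := by
    intro u
    rw [hPdef, Polynomial.eval_sub, Polynomial.eval_C, Polynomial.eval_finset_sum]
    congr 1
    refine sum_congr rfl fun i _ => ?_
    rw [Polynomial.eval_mul, Polynomial.eval_C, Polynomial.eval_pow, hYe]
    ring
  have h1 : T b Real.log x = T b (fun u => Real.log u - P.eval u) x := by
    rw [T_sub, T_poly b P hPd, sub_zero]
  rw [h1]
  apply T_bound
  intro u hu1 hu2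
  have hu0 : 0 < u := by linarith
  obtain ⟨y, hy⟩ : ∃ y, y = (x - u) / x := ⟨_, rfl⟩
  have hy1 : |y| ≤ 2 ^ (b + 1) / x := by
    rw [hy, abs_div, abs_of_pos hx0]
    refine div_le_div_of_nonneg_right ?_ hx0.le
    rw [abs_le]
    constructor <;> linarith
  have hy2 : (2 : ℝ) ^ (b + 1) / x ≤ 1 / 2 := by
    rw [div_le_div_iff₀ hx0 (by norm_num)]
    linarith
  have hy3 : |y| ≤ 1 / 2 := hy1.trans hy2
  have h2 := Real.abs_log_sub_add_sum_range_le (x := y) (by linarith) b
  have h3 : Real.log u = Real.log x + Real.log (1 - y) := by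
    have h4 : 1 - y = u / x := by
      rw [hy]
      field_simp
      ring
    rw [h4, Real.log_div hu0.ne' hx0.ne']
    ring
  have h4 : Real.log u - P.eval u =
      (∑ i ∈ range b, y ^ (i + 1) / ((i : ℝ) + 1)) + Real.log (1 - y) := by
    rw [h3, hPe, ← hy]
    ring
  rw [h4]
  refine h2.trans ?_
  have h5 : (0 : ℝ) < 1 - |y| := by linarith
  rw [div_le_iff₀ h5]
  have h6 : |y| ^ (b + 1) ≤ (2 ^ (b + 1) / x) ^ (b + 1) := pow_le_pow_left₀ (abs_nonneg y) hy1 _
  have h7 : 0 ≤ |y| ^ (b + 1) := by positivity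
  nlinarith

end Pool.Agent.Helper21.QS
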