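import Pool.Agent.Helper21.QS.Chain

/-!
# QS: the end of the chain
-/

set_option autoImplicit false

namespace Pool.Agent.Helper21.QS

open Finset
open Pool.Agent.Helper26.PE (la la_mul la_prime la_one la_sq la_eq la_abs)

/-- the cells of the range which are not hit -/
def NH (X W : ℕ) (Hit : Set ℕ) : Set ℕ := {w : ℕ | X * W ≤ 2 * w ∧ w ≤ 20 * X * W ∧ w ∉ Hit}

theorem NH_finite (X W : ℕ) (Hit : Set ℕ) : (NH X W Hit).Finite :=
  (Set.finite_Iic (20 * X * W)).subset fun _ h => h.2.1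

theorem count_beta {X W : ℕ} {Hit : Set ℕ} {β : ℝ} (hX : 4 ≤ X) (hW : 1 ≤ W)
    (h1 : (X : ℝ) ≤ 2 * β) (h2 : β ≤ 10 * X) :
    Set.ncard {w : ℕ | W ≤ w ∧ w < 2 * W ∧ ⌊((w : ℝ) + 1 / 2) * β⌋₊ ∉ Hit} ≤
      (NH X W Hit).ncard := by
  have hX' : (4 : ℝ) ≤ X := by exact_mod_cast hX
  have hW' : (1 : ℝ) ≤ W := by exact_mod_cast hW
  have hβ : 1 ≤ β := by linarith
  refine Set.ncard_le_ncard_of_injOn (fun w : ℕ => ⌊((w : ℝ) + 1 / 2) * β⌋₊) ?_ ?_
    (NH_finite X W Hit)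
  · rintro w ⟨a1, a2, a3⟩
    have a1' : (W : ℝ) ≤ w := by exact_mod_cast a1
    have a2' : (w : ℝ) + 1 ≤ 2 * W := by exact_mod_cast a2
    have hpos : 0 ≤ ((w : ℝ) + 1 / 2) * β := by positivity
    refine ⟨?_, ?_, a3⟩
    · have h3 : ((X * W : ℕ) : ℝ) / 2 + 1 ≤ ((w : ℝ) + 1 / 2) * β := by
        push_cast
        have h4 : (W + 1 / 2 : ℝ) * (X / 2) ≤ ((w : ℝ) + 1 / 2) * β :=
          mul_le_mul (by linarith) (by linarith) (by positivity) (by positivity)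
        nlinarith
      have h4 := Nat.lt_floor_add_one (((w : ℝ) + 1 / 2) * β)
      have h5 : ((X * W : ℕ) : ℝ) ≤ ((2 * ⌊((w : ℝ) + 1 / 2) * β⌋₊ : ℕ) : ℝ) := by
        rw [Nat.cast_mul 2]
        push_cast at h3 ⊢
        linarith
      exact_mod_cast h5
    · have h4 := Nat.floor_le hpos
      have h5 : ((w : ℝ) + 1 / 2) * β ≤ (2 * W) * (10 * X) :=
        mul_le_mul (by linarith) h2 (by positivity) (by positivity)
      have h6 : ((⌊((w : ℝ) + 1 / 2) * β⌋₊ : ℕ) : ℝ) ≤ ((20 * X * W : ℕ) : ℝ) := by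
        push_cast
        linarith
      exact_mod_cast h6
  · have key : ∀ w w' : ℕ, w < w' →
        ⌊((w : ℝ) + 1 / 2) * β⌋₊ < ⌊((w' : ℝ) + 1 / 2) * β⌋₊ := by
      intro w w' hlt
      have hlt' : (w : ℝ) + 1 ≤ w' := by exact_mod_cast hlt
      have h3 : ((w : ℝ) + 1 / 2) * β + 1 ≤ ((w' : ℝ) + 1 / 2) * β := by nlinarith
      have h4 : ⌊((w : ℝ) + 1 / 2) * β + 1⌋₊ ≤ ⌊((w' : ℝ) + 1 / 2) * β⌋₊ := Nat.floor_le_floor h3
      rw [Nat.floor_add_one (by positivity)] at h4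
      omega
    intro w _ w' _ heq
    simp only at heq
    rcases lt_trichotomy w w' with h | h | h
    · exact absurd heq (key _ _ h).ne
    · exact h
    · exact absurd heq.symm (key _ _ h).ne

theorem exists_start {b X W : ℕ} {Hit : Set ℕ} {L : List (ℕ × ℕ)} (hlen : L.length = 2 ^ b)
    (hβ : ∀ (L1 : List (ℕ × ℕ)) (c : ℕ × ℕ) (L2 : List (ℕ × ℕ)), L = L1 ++ c :: L2 →
      (X : ℝ) ≤ 2 * ((L1.map rt).prod * c.1) ∧ (L1.map rt).prod * c.1 ≤ 10 * X)
    (hX : 4 ≤ X) (hW : 1 ≤ W) (hNH : 2 ^ (b + 2) * (NH X W Hit).ncard ≤ W) :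
    ∃ w0 : ℕ, W ≤ w0 ∧ w0 < 2 * W ∧
      ∀ (L1 : List (ℕ × ℕ)) (c : ℕ × ℕ) (L2 : List (ℕ × ℕ)), L = L1 ++ c :: L2 →
        ⌊((w0 : ℝ) + 1 / 2) * (L1.map rt).prod * (c.1 : ℝ)⌋₊ ∈ Hit := by
  classical
  by_contra hcon
  push Not at hcon
  obtain ⟨β, hβdef⟩ : ∃ β : ℕ → ℝ, ∀ i, β i =
      ((L.take i).map rt).prod * ((L.getD i (0, 0)).1 : ℝ) := ⟨_, fun _ => rfl⟩
  have hβi : ∀ i, i < L.length → (X : ℝ) ≤ 2 * β i ∧ β i ≤ 10 * X := by
    intro i hi
    have h1 : L = L.take i ++ L.getD i (0, 0) :: L.drop (i + 1) := by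
      rw [List.getD_eq_getElem _ _ hi, List.getElem_cons_drop, List.take_append_drop]
    have h2 := hβ _ _ _ h1
    rw [hβdef]
    exact h2
  have hsub : Ico W (2 * W) ⊆ (range L.length).biUnion fun i =>
      (Ico W (2 * W)).filter fun w : ℕ => ⌊((w : ℝ) + 1 / 2) * β i⌋₊ ∉ Hit := by
    intro w hw
    rw [mem_Ico] at hw
    obtain ⟨L1, c, L2, hL, hc⟩ := hcon w hw.1 hw.2
    rw [mem_biUnion]
    refine ⟨L1.length, ?_, ?_⟩
    · rw [mem_range, hL, List.length_append, List.length_cons]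
      omega
    · rw [mem_filter, mem_Ico]
      refine ⟨hw, ?_⟩
      rw [hβdef, hL, List.take_left', List.getD_append_right _ _ _ _ le_rfl, ← mul_assoc]
      · simpa using hc
      · rfl
  have h1 := (card_le_card hsub).trans card_biUnion_le
  rw [Nat.card_Ico] at h1
  have h2 : ∑ i ∈ range L.length, #((Ico W (2 * W)).filter fun w : ℕ =>
      ⌊((w : ℝ) + 1 / 2) * β i⌋₊ ∉ Hit) ≤ ∑ _i ∈ range L.length, (NH X W Hit).ncard := by
    refine sum_le_sum fun i hi => ?_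
    obtain ⟨h3, h4⟩ := hβi i (mem_range.1 hi)
    refine le_trans (le_of_eq ?_) (count_beta hX hW h3 h4)
    rw [← Set.ncard_coe_finset]
    have h5 : (((Ico W (2 * W)).filter fun w : ℕ => ⌊((w : ℝ) + 1 / 2) * β i⌋₊ ∉ Hit :
        Finset ℕ) : Set ℕ) = {w : ℕ | W ≤ w ∧ w < 2 * W ∧ ⌊((w : ℝ) + 1 / 2) * β i⌋₊ ∉ Hit} := by
      ext w
      rw [Finset.mem_coe, mem_filter, mem_Ico, and_assoc]
      rfl
    rw [h5]
  rw [hlen] at h1
  rw [sum_const, card_range, hlen, smul_eq_mul] at h2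
  have h3 : 2 ^ (b + 2) * (NH X W Hit).ncard = 4 * (2 ^ b * (NH X W Hit).ncard) := by ring
  omega

theorem prod_bounds {n K : ℕ} (hn : 0 < n) (L : List (ℕ × ℕ))
    (hL : ∀ c ∈ L, n ≤ c.1 ∧ c.1 < n + K ∧ n ≤ c.2 ∧ c.2 < n + K) :
    0 < (L.map rt).prod ∧ (L.map rt).prod ≤ (1 + (K : ℝ) / n) ^ L.length ∧
      1 ≤ (L.map rt).prod * (1 + (K : ℝ) / n) ^ L.length := by
  have hn0 : (0 : ℝ) < n := by exact_mod_cast hn
  induction L with
  | nil => simp
  | cons c L ih =>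
    obtain ⟨i0, i1, i2⟩ := ih fun d hd => hL d (List.mem_cons_of_mem _ hd)
    obtain ⟨h1, h2, h3, h4⟩ := hL c List.mem_cons_self
    have h1' : (n : ℝ) ≤ c.1 := by exact_mod_cast h1
    have h2' : (c.1 : ℝ) ≤ n + K := by exact_mod_cast h2.le
    have h3' : (n : ℝ) ≤ c.2 := by exact_mod_cast h3
    have h4' : (c.2 : ℝ) ≤ n + K := by exact_mod_cast h4.le
    have c10 : (0 : ℝ) < c.1 := by linarith
    have c20 : (0 : ℝ) < c.2 := by linarith
    have hr0 : 0 < rt c := div_pos c10 c20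
    have hq : 1 + (K : ℝ) / n = (n + K) / n := by
      field_simp
    have hq0 : 0 < 1 + (K : ℝ) / n := by positivity
    have hr1 : rt c ≤ 1 + (K : ℝ) / n := by
      rw [hq, rt]
      exact div_le_div₀ (by positivity) h2' hn0 h3'
    have hr2 : 1 ≤ rt c * (1 + (K : ℝ) / n) := by
      rw [hq, rt, div_mul_div_comm, le_div_iff₀ (by positivity), one_mul, mul_comm]
      exact mul_le_mul h1' h4' c20.le c10.le
    rw [List.map_cons, List.prod_cons, List.length_cons, pow_succ']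
    refine ⟨mul_pos hr0 i0, mul_le_mul hr1 i1 i0.le hq0.le, ?_⟩
    calc (1 : ℝ) = 1 * 1 := by ring
      _ ≤ (rt c * (1 + (K : ℝ) / n)) * ((L.map rt).prod * (1 + (K : ℝ) / n) ^ L.length) :=
          mul_le_mul hr2 i2 zero_le_one (by positivity)
      _ = _ := by ring

/-- the product of `λ(n + j)` is one -/
theorem la_prod_one {b X W n : ℕ} {Hit : Set ℕ} (hX : 16 * (2 ^ (b + 1)) ^ (b + 3) ≤ X)
    (hW : 1 ≤ W) (hWX : W ≤ X ^ b)
    (hH : ∀ w ∈ Hit, ∀ q : ℕ, 1 ≤ q → q ≤ 5 * X → la (w / q + 1) = la q * la (w + 1))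
    (hNH : 2 ^ (b + 2) * (NH X W Hit).ncard ≤ W) (hn1 : X ≤ n) (hn2 : n ≤ 4 * X) :
    ∏ j ∈ range (2 ^ (b + 1)), la (n + j) = 1 := by
  obtain ⟨K, hK⟩ : ∃ K, K = 2 ^ (b + 1) := ⟨_, rfl⟩
  have hK2 : 2 ≤ K := by
    rw [hK, pow_succ]
    have : 1 ≤ 2 ^ b := Nat.one_le_two_pow
    omega
  rw [← hK] at hX
  have hKK : 16 * K ^ 2 ≤ X := by
    refine le_trans (Nat.mul_le_mul_left 16 (Nat.pow_le_pow_right (by omega) ?_)) hX
    omega
  have hKX : 16 * K ≤ X := by nlinarith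
  have hX4 : 4 ≤ X := by omega
  have hn0 : 0 < n := by omega
  have hn0' : (0 : ℝ) < n := by exact_mod_cast hn0
  have hX' : (0 : ℝ) < X := by
    have : 0 < X := by omega
    exact_mod_cast this
  have hnX : (X : ℝ) ≤ n := by exact_mod_cast hn1
  have hK0 : (0 : ℝ) < K := by
    have : 0 < K := by omega
    exact_mod_cast this
  have hmem := fun c hc => mem_PB b n c hc
  rw [← hK] at hmem
  -- the power is at most two
  have hpow : (1 + (K : ℝ) / n) ^ (2 ^ b) ≤ 2 := by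
    have h1 : 1 + (K : ℝ) / n ≤ Real.exp ((K : ℝ) / n) := by
      have := Real.add_one_le_exp ((K : ℝ) / n)
      linarith
    have h2 : (1 + (K : ℝ) / n) ^ (2 ^ b) ≤ Real.exp ((K : ℝ) / n) ^ (2 ^ b) :=
      pow_le_pow_left₀ (by positivity) h1 _
    refine h2.trans ?_
    rw [← Real.exp_nat_mul]
    have h3 : ((2 ^ b : ℕ) : ℝ) * ((K : ℝ) / n) ≤ 1 / 2 := by
      have h4 : ((2 ^ b : ℕ) : ℝ) ≤ K := by
        rw [hK]
        exact_mod_cast Nat.pow_le_pow_right (by norm_num) (by omega)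
      have h5 : (16 : ℝ) * (K : ℝ) ^ 2 ≤ X := by exact_mod_cast hKK
      rw [← mul_div_assoc, div_le_div_iff₀ hn0' (by norm_num)]
      have h6 : ((2 ^ b : ℕ) : ℝ) * K ≤ K * K := mul_le_mul_of_nonneg_right h4 hK0.le
      nlinarith
    have h4 : Real.exp (1 / 2) ≤ 2 := by
      have h5 := Real.exp_one_lt_d9
      have h6 : Real.exp (1 / 2) * Real.exp (1 / 2) = Real.exp 1 := by
        rw [← Real.exp_add]
        norm_num
      have h7 := Real.exp_pos (1 / 2)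
      nlinarith
    exact (Real.exp_le_exp.2 h3).trans h4
  have hq1 : 1 ≤ 1 + (K : ℝ) / n := by
    have : 0 ≤ (K : ℝ) / n := by positivity
    linarith
  have hβ : ∀ (L1 : List (ℕ × ℕ)) (c : ℕ × ℕ) (L2 : List (ℕ × ℕ)), PB b n = L1 ++ c :: L2 →
      (X : ℝ) ≤ 2 * ((L1.map rt).prod * c.1) ∧ (L1.map rt).prod * c.1 ≤ 10 * X := by
    intro L1 c L2 hL
    have hlen : L1.length ≤ 2 ^ b := by
      have h1 := congrArg List.length hL
      rw [length_PB, List.length_append, List.length_cons] at h1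
      omega
    obtain ⟨g0, g1, g2⟩ := prod_bounds hn0 L1 (K := K) fun d hd =>
      hmem d (by rw [hL]; exact List.mem_append_left _ hd)
    obtain ⟨k1, k2, -, -⟩ := hmem c (by rw [hL]; simp)
    have k1' : (n : ℝ) ≤ c.1 := by exact_mod_cast k1
    have k2' : (c.1 : ℝ) ≤ 5 * X := by
      have : c.1 ≤ 5 * X := by omega
      exact_mod_cast this
    have hp : (1 + (K : ℝ) / n) ^ L1.length ≤ 2 := (pow_le_pow_right₀ hq1 hlen).trans hpow
    have g3 : (L1.map rt).prod ≤ 2 := g1.trans hp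
    have g4 : 1 ≤ (L1.map rt).prod * 2 := g2.trans (mul_le_mul_of_nonneg_left hp g0.le)
    have c0 : (0 : ℝ) < c.1 := by linarith
    constructor
    · nlinarith
    · nlinarith
  obtain ⟨w0, hw1, hw2, hw3⟩ := exists_start (length_PB b n) hβ hX4 hW hNH
  have hch := chain_list hH (PB b n) ((w0 : ℝ) + 1 / 2) (fun c hc => by
    obtain ⟨k1, k2, k3, k4⟩ := hmem c hc
    omega) hw3
  rw [la_PB] at hch
  -- the end of the chain is its start
  obtain ⟨R, hR⟩ : ∃ R, R = ((PB b n).map rt).prod := ⟨_, rfl⟩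
  obtain ⟨hR0, hRlog⟩ := log_PB b n (by omega)
  rw [← hR] at hR0 hRlog hch
  have hT := T_log b n (by
    have h1 : ((2 * K : ℕ) : ℝ) ≤ n := by exact_mod_cast (by omega : 2 * K ≤ n)
    rw [hK] at h1
    push_cast at h1
    exact h1)
  rw [← hRlog] at hT
  have hKr : (2 : ℝ) ^ (b + 1) = K := by
    rw [hK]
    push_cast
    rfl
  rw [hKr] at hT
  obtain ⟨δ, hδ⟩ : ∃ δ, δ = (K : ℝ) * (2 * ((K : ℝ) / n) ^ (b + 1)) := ⟨_, rfl⟩
  rw [← hδ] at hT
  have hδ0 : 0 ≤ δ := by rw [hδ]; positivity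
  have hδW : 16 * W * δ ≤ 1 := by
    have h1 : ((K : ℝ) / n) ^ (b + 1) ≤ ((K : ℝ) / X) ^ (b + 1) :=
      pow_le_pow_left₀ (by positivity) (div_le_div_of_nonneg_left hK0.le hX' hnX) _
    have h2 : (W : ℝ) ≤ (X : ℝ) ^ b := by exact_mod_cast hWX
    have h3 : (16 : ℝ) * (K : ℝ) ^ (b + 3) ≤ X := by exact_mod_cast hX
    have h4 : (2 : ℝ) ≤ K := by exact_mod_cast hK2
    calc 16 * W * δ ≤ 16 * (X : ℝ) ^ b * (K * (2 * ((K : ℝ) / X) ^ (b + 1))) := by
          rw [hδ]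
          gcongr
      _ = 16 * (2 * K ^ (b + 2)) / X := by
          rw [div_pow, pow_succ (X : ℝ) b, pow_succ (K : ℝ) (b + 1)]
          field_simp
      _ ≤ 16 * (K * K ^ (b + 2)) / X := by gcongr
      _ = 16 * K ^ (b + 3) / X := by
          rw [pow_succ (K : ℝ) (b + 2)]
          ring
      _ ≤ 1 := by
          rw [div_le_one hX']
          exact h3
  have hW' : (1 : ℝ) ≤ W := by exact_mod_cast hW
  have hδ1 : δ ≤ 1 := by nlinarith
  have hR1 : |R - 1| ≤ 2 * δ := by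
    have h1 := Real.abs_exp_sub_one_le (x := Real.log R) (hT.trans hδ1)
    rw [Real.exp_log hR0] at h1
    linarith
  have hfl : ⌊((w0 : ℝ) + 1 / 2)⌋₊ = w0 := by
    rw [Nat.floor_eq_iff (by positivity)]
    constructor <;> linarith
  have hfl2 : ⌊((w0 : ℝ) + 1 / 2) * R⌋₊ = w0 := by
    have hw2' : (w0 : ℝ) + 1 ≤ 2 * W := by exact_mod_cast hw2
    have h1 : |((w0 : ℝ) + 1 / 2) * (R - 1)| ≤ 1 / 4 := by
      rw [abs_mul, abs_of_pos (by positivity : (0 : ℝ) < (w0 : ℝ) + 1 / 2)]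
      calc ((w0 : ℝ) + 1 / 2) * |R - 1| ≤ (2 * W) * (2 * δ) :=
            mul_le_mul (by linarith) hR1 (abs_nonneg _) (by positivity)
        _ ≤ 1 / 4 := by linarith
    rw [abs_le] at h1
    have h2 : ((w0 : ℝ) + 1 / 2) * R = (w0 : ℝ) + 1 / 2 + ((w0 : ℝ) + 1 / 2) * (R - 1) := by ring
    rw [Nat.floor_eq_iff (by positivity), h2]
    constructor
    · linarith [h1.1]
    · linarith [h1.2]
  rw [hfl, hfl2] at hch
  have h1 := la_sq (w0 + 1)
  have h2 : (∏ j ∈ range (2 ^ (b + 1)), la (n + j)) * (la (w0 + 1) * la (w0 + 1)) =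
      la (w0 + 1) * la (w0 + 1) := by
    rw [← mul_assoc, ← hch]
  rwa [h1, mul_one] at h2

theorem chain_end (b : ℕ) : ∃ X0 : ℕ, ∀ X W : ℕ, X0 ≤ X → 1 ≤ W → W ≤ X ^ b → ∀ Hit : Set ℕ,
    (∀ w ∈ Hit, ∀ q : ℕ, 1 ≤ q → q ≤ 5 * X → la (w / q + 1) = la q * la (w + 1)) →
    2 ^ (b + 2) * Set.ncard {w : ℕ | X * W ≤ 2 * w ∧ w ≤ 20 * X * W ∧ w ∉ Hit} ≤ W → False := by
  refine ⟨16 * (2 ^ (b + 1)) ^ (b + 3), fun X W hX hW hWX Hit hH hNH => ?_⟩
  obtain ⟨K, hK⟩ : ∃ K, K = 2 ^ (b + 1) := ⟨_, rfl⟩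
  have hK1 : 1 ≤ K := by
    rw [hK]
    exact Nat.one_le_two_pow
  have hprod : ∀ n, X ≤ n → n ≤ 4 * X → ∏ j ∈ range K, la (n + j) = 1 := by
    intro n h1 h2
    rw [hK]
    exact la_prod_one hX hW hWX hH hNH h1 h2
  have hKX : 16 * K ≤ X := by
    rw [← hK] at hX
    refine le_trans (Nat.mul_le_mul_left 16 ?_) hX
    exact Nat.le_self_pow (by omega) K
  have hper : ∀ n, X ≤ n → n + 1 ≤ 4 * X → la (n + K) = la n := by
    intro n h1 h2
    have e1 := hprod n h1 (by omega)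
    have e2 := hprod (n + 1) (by omega) h2
    have e3 : (∏ j ∈ range K, la (n + 1 + j)) * la n = (∏ j ∈ range K, la (n + j)) * la (n + K) := by
      have e4 : ∏ j ∈ range K, la (n + 1 + j) = ∏ j ∈ range K, la (n + (j + 1)) :=
        prod_congr rfl fun j _ => by rw [add_assoc, add_comm 1 j]
      rw [e4, ← prod_range_succ (fun j => la (n + j)) K]
      rw [prod_range_succ' (fun j => la (n + j)) K, add_zero]
    rw [e1, e2, one_mul, one_mul] at e3
    exact e3.symm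
  obtain ⟨k, hk⟩ : ∃ k, k = X / K + 1 := ⟨_, rfl⟩
  have hk1 : X ≤ K * k := by
    rw [hk]
    exact (Nat.lt_mul_div_succ X (by omega)).le
  have hk2 : K * k ≤ X + K := by
    rw [hk, mul_add, mul_one]
    exact Nat.add_le_add_right (Nat.mul_div_le X K) K
  have hit : ∀ j, j ≤ k → la (K * k + K * j) = la (K * k) := by
    intro j
    induction j with
    | zero => intro _; rw [mul_zero, add_zero]
    | succ j ih =>
      intro hj
      have h1 : K * j + K ≤ K * k := by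
        calc K * j + K = K * (j + 1) := by ring
          _ ≤ K * k := Nat.mul_le_mul_left K hj
      have h2 := hper (K * k + K * j) (by omega) (by omega)
      rw [mul_add, mul_one, ← add_assoc, h2]
      exact ih (by omega)
  have h1 := hit k le_rfl
  have h2 : K * k + K * k = 2 * (K * k) := by ring
  have h3 : K * k ≠ 0 := by
    have : 0 < X := by omega
    omega
  rw [h2, la_mul (by norm_num) h3, la_prime Nat.prime_two] at h1
  rcases la_eq (K * k) with h4 | h4 <;> rw [h4] at h1 <;> norm_num at h1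

end Pool.Agent.Helper21.QS
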