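import Pool.Agent.Helper21.QS.ChainEnd

/-!
# QS: the end of the chain, with explicit parameters

The same proof as in ChainEnd.lean, with the conditions `16 K ^ 2 ≤ X`, `32 W K ^ (b + 2) ≤ X ^ (b + 1)`, `K = 2 ^ (b + 1)`.
-/

set_option autoImplicit false

namespace Pool.Agent.Helper21.QS

open Finset
open Pool.Agent.Helper26.PE (la la_mul la_prime la_one la_sq la_eq la_abs)

/-- the product of `λ(n + j)` is one -/
theorem la_prod_one_q {b X W n : ℕ} {Hit : Set ℕ} (hX : 16 * (2 ^ (b + 1)) ^ 2 ≤ X)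
    (hW : 1 ≤ W) (hWX : 32 * W * (2 ^ (b + 1)) ^ (b + 2) ≤ X ^ (b + 1))
    (hH : ∀ w ∈ Hit, ∀ q : ℕ, 1 ≤ q → q ≤ 5 * X → la (w / q + 1) = la q * la (w + 1))
    (hNH : 2 ^ (b + 2) * (NH X W Hit).ncard ≤ W) (hn1 : X ≤ n) (hn2 : n ≤ 4 * X) :
    ∏ j ∈ range (2 ^ (b + 1)), la (n + j) = 1 := by
  obtain ⟨K, hK⟩ : ∃ K, K = 2 ^ (b + 1) := ⟨_, rfl⟩
  have hK2 : 2 ≤ K := by
    rw [hK, pow_succ]
    have : 1 ≤ 2 ^ b := Nat.one_le_two_pow
    omega
  rw [← hK] at hX hWX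
  have hKK : 16 * K ^ 2 ≤ X := hX
  have hKX : 16 * K ≤ X := by nlinarith
  have hX4 : 4 ≤ X := by omega
  have hn0 : 0 < n := by omega
  have hn0' : (0 : ℝ) < n := by exact_mod_cast hn0
  have hX' : (0 : ℝ) < X := by
    have : 0 < X := by omega
    exact_mod_cast this
  have hnX : (X : ℝ) ≤ n := by exact_mod_cast hn1
  have hK0 : (0 : ℝ) < K := by
    have : 0 < K := by omega
    exact_mod_cast this
  have hmem := fun c hc => mem_PB b n c hc
  rw [← hK] at hmem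
  -- the power is at most two
  have hpow : (1 + (K : ℝ) / n) ^ (2 ^ b) ≤ 2 := by
    have h1 : 1 + (K : ℝ) / n ≤ Real.exp ((K : ℝ) / n) := by
      have := Real.add_one_le_exp ((K : ℝ) / n)
      linarith
    have h2 : (1 + (K : ℝ) / n) ^ (2 ^ b) ≤ Real.exp ((K : ℝ) / n) ^ (2 ^ b) :=
      pow_le_pow_left₀ (by positivity) h1 _
    refine h2.trans ?_
    rw [← Real.exp_nat_mul]
    have h3 : ((2 ^ b : ℕ) : ℝ) * ((K : ℝ) / n) ≤ 1 / 2 := by
      have h4 : ((2 ^ b : ℕ) : ℝ) ≤ K := by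
        rw [hK]
        exact_mod_cast Nat.pow_le_pow_right (by norm_num) (by omega)
      have h5 : (16 : ℝ) * (K : ℝ) ^ 2 ≤ X := by exact_mod_cast hKK
      rw [← mul_div_assoc, div_le_div_iff₀ hn0' (by norm_num)]
      have h6 : ((2 ^ b : ℕ) : ℝ) * K ≤ K * K := mul_le_mul_of_nonneg_right h4 hK0.le
      nlinarith
    have h4 : Real.exp (1 / 2) ≤ 2 := by
      have h5 := Real.exp_one_lt_d9
      have h6 : Real.exp (1 / 2) * Real.exp (1 / 2) = Real.exp 1 := by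
        rw [← Real.exp_add]
        norm_num
      have h7 := Real.exp_pos (1 / 2)
      nlinarith
    exact (Real.exp_le_exp.2 h3).trans h4
  have hq1 : 1 ≤ 1 + (K : ℝ) / n := by
    have : 0 ≤ (K : ℝ) / n := by positivity
    linarith
  have hβ : ∀ (L1 : List (ℕ × ℕ)) (c : ℕ × ℕ) (L2 : List (ℕ × ℕ)), PB b n = L1 ++ c :: L2 →
      (X : ℝ) ≤ 2 * ((L1.map rt).prod * c.1) ∧ (L1.map rt).prod * c.1 ≤ 10 * X := by
    intro L1 c L2 hL
    have hlen : L1.length ≤ 2 ^ b := by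
      have h1 := congrArg List.length hL
      rw [length_PB, List.length_append, List.length_cons] at h1
      omega
    obtain ⟨g0, g1, g2⟩ := prod_bounds hn0 L1 (K := K) fun d hd =>
      hmem d (by rw [hL]; exact List.mem_append_left _ hd)
    obtain ⟨k1, k2, -, -⟩ := hmem c (by rw [hL]; simp)
    have k1' : (n : ℝ) ≤ c.1 := by exact_mod_cast k1
    have k2' : (c.1 : ℝ) ≤ 5 * X := by
      have : c.1 ≤ 5 * X := by omega
      exact_mod_cast this
    have hp : (1 + (K : ℝ) / n) ^ L1.length ≤ 2 := (pow_le_pow_right₀ hq1 hlen).trans hpow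
    have g3 : (L1.map rt).prod ≤ 2 := g1.trans hp
    have g4 : 1 ≤ (L1.map rt).prod * 2 := g2.trans (mul_le_mul_of_nonneg_left hp g0.le)
    have c0 : (0 : ℝ) < c.1 := by linarith
    constructor
    · nlinarith
    · nlinarith
  obtain ⟨w0, hw1, hw2, hw3⟩ := exists_start (length_PB b n) hβ hX4 hW hNH
  have hch := chain_list hH (PB b n) ((w0 : ℝ) + 1 / 2) (fun c hc => by
    obtain ⟨k1, k2, k3, k4⟩ := hmem c hc
    omega) hw3
  rw [la_PB] at hch
  -- the end of the chain is its start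
  obtain ⟨R, hR⟩ : ∃ R, R = ((PB b n).map rt).prod := ⟨_, rfl⟩
  obtain ⟨hR0, hRlog⟩ := log_PB b n (by omega)
  rw [← hR] at hR0 hRlog hch
  have hT := T_log b n (by
    have h1 : ((2 * K : ℕ) : ℝ) ≤ n := by exact_mod_cast (by omega : 2 * K ≤ n)
    rw [hK] at h1
    push_cast at h1
    exact h1)
  rw [← hRlog] at hT
  have hKr : (2 : ℝ) ^ (b + 1) = K := by
    rw [hK]
    push_cast
    rfl
  rw [hKr] at hT
  obtain ⟨δ, hδ⟩ : ∃ δ, δ = (K : ℝ) * (2 * ((K : ℝ) / n) ^ (b + 1)) := ⟨_, rfl⟩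
  rw [← hδ] at hT
  have hδ0 : 0 ≤ δ := by rw [hδ]; positivity
  have hδW : 16 * W * δ ≤ 1 := by
    have h1 : ((K : ℝ) / n) ^ (b + 1) ≤ ((K : ℝ) / X) ^ (b + 1) :=
      pow_le_pow_left₀ (by positivity) (div_le_div_of_nonneg_left hK0.le hX' hnX) _
    have h2 : 32 * (W : ℝ) * (K : ℝ) ^ (b + 2) ≤ (X : ℝ) ^ (b + 1) := by exact_mod_cast hWX
    have h3 : (0 : ℝ) < (X : ℝ) ^ (b + 1) := by positivity
    calc 16 * W * δ ≤ 16 * W * (K * (2 * ((K : ℝ) / X) ^ (b + 1))) := by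
          rw [hδ]
          gcongr
      _ = 32 * W * K ^ (b + 2) / X ^ (b + 1) := by
          rw [div_pow, pow_succ (K : ℝ) (b + 1)]
          ring
      _ ≤ 1 := by
          rw [div_le_one h3]
          exact h2
  have hW' : (1 : ℝ) ≤ W := by exact_mod_cast hW
  have hδ1 : δ ≤ 1 := by nlinarith
  have hR1 : |R - 1| ≤ 2 * δ := by
    have h1 := Real.abs_exp_sub_one_le (x := Real.log R) (hT.trans hδ1)
    rw [Real.exp_log hR0] at h1
    linarith
  have hfl : ⌊((w0 : ℝ) + 1 / 2)⌋₊ = w0 := by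
    rw [Nat.floor_eq_iff (by positivity)]
    constructor <;> linarith
  have hfl2 : ⌊((w0 : ℝ) + 1 / 2) * R⌋₊ = w0 := by
    have hw2' : (w0 : ℝ) + 1 ≤ 2 * W := by exact_mod_cast hw2
    have h1 : |((w0 : ℝ) + 1 / 2) * (R - 1)| ≤ 1 / 4 := by
      rw [abs_mul, abs_of_pos (by positivity : (0 : ℝ) < (w0 : ℝ) + 1 / 2)]
      calc ((w0 : ℝ) + 1 / 2) * |R - 1| ≤ (2 * W) * (2 * δ) :=
            mul_le_mul (by linarith) hR1 (abs_nonneg _) (by positivity)
        _ ≤ 1 / 4 := by linarith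
    rw [abs_le] at h1
    have h2 : ((w0 : ℝ) + 1 / 2) * R = (w0 : ℝ) + 1 / 2 + ((w0 : ℝ) + 1 / 2) * (R - 1) := by ring
    rw [Nat.floor_eq_iff (by positivity), h2]
    constructor
    · linarith [h1.1]
    · linarith [h1.2]
  rw [hfl, hfl2] at hch
  have h1 := la_sq (w0 + 1)
  have h2 : (∏ j ∈ range (2 ^ (b + 1)), la (n + j)) * (la (w0 + 1) * la (w0 + 1)) =
      la (w0 + 1) * la (w0 + 1) := by
    rw [← mul_assoc, ← hch]
  rwa [h1, mul_one] at h2

theorem chain_end_q (b X W : ℕ) (hX : 16 * (2 ^ (b + 1)) ^ 2 ≤ X) (hW : 1 ≤ W)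
    (hWX : 32 * W * (2 ^ (b + 1)) ^ (b + 2) ≤ X ^ (b + 1)) (Hit : Set ℕ)
    (hH : ∀ w ∈ Hit, ∀ q : ℕ, 1 ≤ q → q ≤ 5 * X → la (w / q + 1) = la q * la (w + 1))
    (hc : 2 ^ (b + 2) * Set.ncard {w : ℕ | X * W ≤ 2 * w ∧ w ≤ 20 * X * W ∧ w ∉ Hit} ≤ W) :
    False := by
  obtain ⟨K, hK⟩ : ∃ K, K = 2 ^ (b + 1) := ⟨_, rfl⟩
  have hK1 : 1 ≤ K := by
    rw [hK]
    exact Nat.one_le_two_pow
  have hprod : ∀ n, X ≤ n → n ≤ 4 * X → ∏ j ∈ range K, la (n + j) = 1 := by
    intro n h1 h2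
    rw [hK]
    exact la_prod_one_q hX hW hWX hH hc h1 h2
  have hKX : 16 * K ≤ X := by
    rw [← hK] at hX
    refine le_trans (Nat.mul_le_mul_left 16 ?_) hX
    exact Nat.le_self_pow (by omega) K
  have hper : ∀ n, X ≤ n → n + 1 ≤ 4 * X → la (n + K) = la n := by
    intro n h1 h2
    have e1 := hprod n h1 (by omega)
    have e2 := hprod (n + 1) (by omega) h2
    have e3 : (∏ j ∈ range K, la (n + 1 + j)) * la n = (∏ j ∈ range K, la (n + j)) * la (n + K) := by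
      have e4 : ∏ j ∈ range K, la (n + 1 + j) = ∏ j ∈ range K, la (n + (j + 1)) :=
        prod_congr rfl fun j _ => by rw [add_assoc, add_comm 1 j]
      rw [e4, ← prod_range_succ (fun j => la (n + j)) K]
      rw [prod_range_succ' (fun j => la (n + j)) K, add_zero]
    rw [e1, e2, one_mul, one_mul] at e3
    exact e3.symm
  obtain ⟨k, hk⟩ : ∃ k, k = X / K + 1 := ⟨_, rfl⟩
  have hk1 : X ≤ K * k := by
    rw [hk]
    exact (Nat.lt_mul_div_succ X (by omega)).le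
  have hk2 : K * k ≤ X + K := by
    rw [hk, mul_add, mul_one]
    exact Nat.add_le_add_right (Nat.mul_div_le X K) K
  have hit : ∀ j, j ≤ k → la (K * k + K * j) = la (K * k) := by
    intro j
    induction j with
    | zero => intro _; rw [mul_zero, add_zero]
    | succ j ih =>
      intro hj
      have h1 : K * j + K ≤ K * k := by
        calc K * j + K = K * (j + 1) := by ring
          _ ≤ K * k := Nat.mul_le_mul_left K hj
      have h2 := hper (K * k + K * j) (by omega) (by omega)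
      rw [mul_add, mul_one, ← add_assoc, h2]
      exact ih (by omega)
  have h1 := hit k le_rfl
  have h2 : K * k + K * k = 2 * (K * k) := by ring
  have h3 : K * k ≠ 0 := by
    have : 0 < X := by omega
    omega
  rw [h2, la_mul (by norm_num) h3, la_prime Nat.prime_two] at h1
  rcases la_eq (K * k) with h4 | h4 <;> rw [h4] at h1 <;> norm_num at h1

end Pool.Agent.Helper21.QS
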