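import Mathlib
import Pool.Agent.Helper68.CO2.Liou

/-!
# QS: from blocks to all `n ≤ N`, windows at any place between `n ^ 2 - n` and `n ^ 2 + n`

`dyad` is `Fin_dyad` of Helper26/QS/Fin.lean with a constant.
-/

set_option autoImplicit false

namespace Pool.Agent.Helper21.QS

open Finset
open Pool.Agent.Helper68.CO2 (lam)

/-- dyadic sum -/
theorem dyad (P : ℕ → Prop) [DecidablePred P] {ε B : ℝ} (hε : 0 < ε) (hB : 0 ≤ B) (N0 : ℕ)
    (hb : ∀ M : ℕ, N0 ≤ M → (#((Ioc M (2 * M)).filter P) : ℝ) ≤ B * (M : ℝ) ^ ε) :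
    ∃ C : ℝ, ∀ N : ℕ, 1 ≤ N → (#((Icc 1 N).filter P) : ℝ) ≤ C * (N : ℝ) ^ ε := by
  have h2 : 1 < (2 : ℝ) ^ ε := Real.one_lt_rpow (by norm_num) hε
  obtain ⟨C, hC⟩ : ∃ C : ℝ, C = max ((2 * N0 + 2 : ℕ) : ℝ) ((B + 1) / ((2 : ℝ) ^ ε - 1)) :=
    ⟨_, rfl⟩
  have hC1 : ((2 * N0 + 2 : ℕ) : ℝ) ≤ C := by
    rw [hC]
    exact le_max_left _ _
  have hC2 : B + 1 ≤ C * ((2 : ℝ) ^ ε - 1) := by
    have h3 : (B + 1) / ((2 : ℝ) ^ ε - 1) ≤ C := by
      rw [hC]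
      exact le_max_right _ _
    rwa [div_le_iff₀ (by linarith)] at h3
  have hC0 : 0 ≤ C := le_trans (Nat.cast_nonneg _) hC1
  refine ⟨C, fun N => ?_⟩
  induction N using Nat.strong_induction_on with
  | _ N ih =>
    intro hN
    have hN1 : (1 : ℝ) ≤ (N : ℝ) := by exact_mod_cast hN
    have hNe : 1 ≤ (N : ℝ) ^ ε := Real.one_le_rpow hN1 hε.le
    by_cases hsm : N < 2 * N0 + 2
    · have h3 : #((Icc 1 N).filter P) ≤ 2 * N0 + 2 := by
        refine (card_filter_le _ _).trans ?_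
        rw [Nat.card_Icc]
        omega
      calc (#((Icc 1 N).filter P) : ℝ) ≤ ((2 * N0 + 2 : ℕ) : ℝ) := by exact_mod_cast h3
        _ ≤ C := hC1
        _ ≤ C * (N : ℝ) ^ ε := le_mul_of_one_le_right hC0 hNe
    · obtain ⟨M, hM⟩ : ∃ M, M = N / 2 := ⟨_, rfl⟩
      have hM1 : 1 ≤ M := by omega
      have h3 : (Icc 1 N).filter P ⊆
          ((Icc 1 M).filter P ∪ (Ioc M (2 * M)).filter P) ∪ {N} := by
        intro x hx
        rw [mem_filter, mem_Icc] at hx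
        rw [mem_union, mem_union, mem_filter, mem_filter, mem_Icc, mem_Ioc, mem_singleton]
        by_cases h4 : x ≤ M
        · exact Or.inl (Or.inl ⟨⟨hx.1.1, h4⟩, hx.2⟩)
        · by_cases h5 : x ≤ 2 * M
          · exact Or.inl (Or.inr ⟨⟨by omega, h5⟩, hx.2⟩)
          · exact Or.inr (by omega)
      have h4 : #((Icc 1 N).filter P) ≤
          #((Icc 1 M).filter P) + #((Ioc M (2 * M)).filter P) + 1 := by
        refine (card_le_card h3).trans ((card_union_le _ _).trans ?_)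
        rw [card_singleton]
        exact Nat.add_le_add_right (card_union_le _ _) 1
      have h5 := ih M (by omega) hM1
      have h6 := hb M (by omega)
      have hMN : (M : ℝ) ≤ (N : ℝ) / 2 := by
        have : 2 * M ≤ N := by omega
        have h7 : (2 : ℝ) * M ≤ N := by exact_mod_cast this
        linarith
      have hMr : (1 : ℝ) ≤ (M : ℝ) := by exact_mod_cast hM1
      have h7 : (M : ℝ) ^ ε ≤ ((N : ℝ) / 2) ^ ε :=
        Real.rpow_le_rpow (by linarith) hMN hε.le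
      have h8 : 1 ≤ ((N : ℝ) / 2) ^ ε := Real.one_le_rpow (by linarith) hε.le
      have h9 : ((N : ℝ) / 2) ^ ε = (N : ℝ) ^ ε / (2 : ℝ) ^ ε :=
        Real.div_rpow (by linarith) (by norm_num) _
      have h10 : (#((Icc 1 N).filter P) : ℝ) ≤
          #((Icc 1 M).filter P) + #((Ioc M (2 * M)).filter P) + 1 := by exact_mod_cast h4
      have h11 : C * (M : ℝ) ^ ε ≤ C * ((N : ℝ) / 2) ^ ε := mul_le_mul_of_nonneg_left h7 hC0
      have h15 : B * (M : ℝ) ^ ε ≤ B * ((N : ℝ) / 2) ^ ε := mul_le_mul_of_nonneg_left h7 hB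
      have h12 : (#((Icc 1 N).filter P) : ℝ) ≤ (C + (B + 1)) * ((N : ℝ) / 2) ^ ε := by
        linarith
      refine h12.trans ?_
      have h13 : (C + (B + 1)) ≤ C * (2 : ℝ) ^ ε := by linarith
      have h14 : (N : ℝ) ^ ε = (2 : ℝ) ^ ε * ((N : ℝ) / 2) ^ ε := by
        rw [h9]
        field_simp
      rw [h14, ← mul_assoc]
      exact mul_le_mul_of_nonneg_right h13 (by linarith)

/-- windows are finite -/
theorem win_fin (x : ℕ) (t : ℝ) (Q : ℕ → Prop) :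
    {z : ℕ | x < z ∧ (z : ℝ) ≤ (x : ℝ) + t ∧ Q z}.Finite := by
  refine (Set.finite_Icc 0 ⌊(x : ℝ) + t⌋₊).subset ?_
  rintro z ⟨-, h2, -⟩
  exact ⟨Nat.zero_le _, Nat.le_floor h2⟩

/-- longer windows contain more -/
theorem win_mono (x : ℕ) {t u : ℝ} (h : t ≤ u) (Q : ℕ → Prop) :
    ({z : ℕ | x < z ∧ (z : ℝ) ≤ (x : ℝ) + t ∧ Q z}.ncard : ℝ) ≤
      ({z : ℕ | x < z ∧ (z : ℝ) ≤ (x : ℝ) + u ∧ Q z}.ncard : ℝ) :=
  Nat.cast_le.2 (Set.ncard_le_ncard (fun _ hz => ⟨hz.1, hz.2.1.trans (by linarith), hz.2.2⟩)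
    (win_fin x u Q))

/-- some window of length at least `n ^ (1 - δ)`, placed between `n ^ 2 - n` and `n ^ 2 + n`, has fewer
than `n ^ (1 - ε)` integers of one of the two kinds -/
def PoorG (δ ε : ℝ) (n : ℕ) : Prop :=
  ∃ x : ℕ, n ^ 2 ≤ x + n ∧ x ≤ n ^ 2 + n ∧ ∃ L : ℝ, (n : ℝ) ^ (1 - δ) ≤ L ∧
    ¬ ((n : ℝ) ^ (1 - ε) ≤ ({z : ℕ | x < z ∧ (z : ℝ) ≤ (x : ℝ) + L ∧
          Even (ArithmeticFunction.cardFactors z)}.ncard : ℝ) ∧
      (n : ℝ) ^ (1 - ε) ≤ ({z : ℕ | x < z ∧ (z : ℝ) ≤ (x : ℝ) + L ∧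
          Odd (ArithmeticFunction.cardFactors z)}.ncard : ℝ))

/-- a poor window has nearly constant `lam` -/
theorem poor_sign {δ ε : ℝ} (hδ1 : δ ≤ 1) (hε1 : ε ≤ 1) (hε0 : 0 ≤ ε) {M n : ℕ} (h1 : M < n)
    (h2 : n ≤ 2 * M) {x : ℕ} {L : ℝ} (hL : (n : ℝ) ^ (1 - δ) ≤ L)
    (hx : ¬ ((n : ℝ) ^ (1 - ε) ≤ ({z : ℕ | x < z ∧ (z : ℝ) ≤ (x : ℝ) + L ∧
          Even (ArithmeticFunction.cardFactors z)}.ncard : ℝ) ∧
      (n : ℝ) ^ (1 - ε) ≤ ({z : ℕ | x < z ∧ (z : ℝ) ≤ (x : ℝ) + L ∧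
          Odd (ArithmeticFunction.cardFactors z)}.ncard : ℝ))) :
    ∃ s : ℤˣ, ({z : ℕ | x < z ∧ (z : ℝ) ≤ (x : ℝ) + (M : ℝ) ^ (1 - δ) ∧
      lam z ≠ s}.ncard : ℝ) ≤ 2 * (M : ℝ) ^ (1 - ε) := by
  have hMm : (M : ℝ) ≤ (n : ℝ) := by exact_mod_cast h1.le
  have h2' : (n : ℝ) ≤ 2 * (M : ℝ) := by exact_mod_cast h2
  have hM0 : (0 : ℝ) ≤ (M : ℝ) := Nat.cast_nonneg M
  have hw : (M : ℝ) ^ (1 - δ) ≤ L :=
    (Real.rpow_le_rpow hM0 hMm (by linarith)).trans hL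
  have hv : (n : ℝ) ^ (1 - ε) ≤ 2 * (M : ℝ) ^ (1 - ε) := by
    calc (n : ℝ) ^ (1 - ε) ≤ (2 * (M : ℝ)) ^ (1 - ε) :=
          Real.rpow_le_rpow (by linarith) h2' (by linarith)
      _ = (2 : ℝ) ^ (1 - ε) * (M : ℝ) ^ (1 - ε) := Real.mul_rpow (by norm_num) hM0
      _ ≤ (2 : ℝ) ^ (1 : ℝ) * (M : ℝ) ^ (1 - ε) :=
          mul_le_mul_of_nonneg_right
            (Real.rpow_le_rpow_of_exponent_le (by norm_num) (by linarith))
            (Real.rpow_nonneg hM0 _)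
      _ = 2 * (M : ℝ) ^ (1 - ε) := by rw [Real.rpow_one]
  rw [not_and_or] at hx
  rcases hx with hx | hx
  · refine ⟨-1, ?_⟩
    have h3 : {z : ℕ | x < z ∧ (z : ℝ) ≤ (x : ℝ) + (M : ℝ) ^ (1 - δ) ∧ lam z ≠ -1} ⊆
        {z : ℕ | x < z ∧ (z : ℝ) ≤ (x : ℝ) + L ∧
        Even (ArithmeticFunction.cardFactors z)} := by
      rintro z ⟨z1, z2, z3⟩
      refine ⟨z1, by linarith, ?_⟩
      by_contra hcon
      rw [Nat.not_even_iff_odd] at hcon
      exact z3 hcon.neg_one_pow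
    have h4 := Set.ncard_le_ncard h3 (win_fin x _ _)
    push Not at hx
    exact (Nat.cast_le.2 h4).trans (hx.le.trans hv)
  · refine ⟨1, ?_⟩
    have h3 : {z : ℕ | x < z ∧ (z : ℝ) ≤ (x : ℝ) + (M : ℝ) ^ (1 - δ) ∧ lam z ≠ 1} ⊆
        {z : ℕ | x < z ∧ (z : ℝ) ≤ (x : ℝ) + L ∧
        Odd (ArithmeticFunction.cardFactors z)} := by
      rintro z ⟨z1, z2, z3⟩
      refine ⟨z1, by linarith, ?_⟩
      by_contra hcon
      rw [Nat.not_odd_iff_even] at hcon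
      exact z3 hcon.neg_one_pow
    have h4 := Set.ncard_le_ncard h3 (win_fin x _ _)
    push Not at hx
    exact (Nat.cast_le.2 h4).trans (hx.le.trans hv)

/-- positions for numbers of the same parity are separated -/
theorem sep_pos {M n n' x x' : ℕ} (hM : M < n) (hlt : n < n') (hpar : n % 2 = n' % 2)
    (hx : x ≤ n ^ 2 + n) (hx' : n' ^ 2 ≤ x' + n') : x + M ≤ x' := by
  obtain ⟨d, hd⟩ : ∃ d, n' = n + 2 + d := ⟨n' - (n + 2), by omega⟩
  subst hd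
  nlinarith

theorem few_windowsG (δ ε : ℝ) (hδ : 0 ≤ δ) (h : 10 * δ < ε)
    (hb : ε ≤ 1 → ∃ N0 : ℕ, ∀ N : ℕ, N0 ≤ N → ∀ X : Finset ℕ,
      (∀ x ∈ X, N ^ 2 ≤ x ∧ x ≤ 5 * N ^ 2) → (∀ x ∈ X, ∀ y ∈ X, x < y → x + N ≤ y) →
      (∀ x ∈ X, ∃ s : ℤˣ, ({z : ℕ | x < z ∧ (z : ℝ) ≤ (x : ℝ) + (N : ℝ) ^ (1 - δ) ∧
        lam z ≠ s}.ncard : ℝ) ≤ 2 * (N : ℝ) ^ (1 - ε)) → (#X : ℝ) ≤ (N : ℝ) ^ ε) :
    ∃ C : ℝ, ∀ N : ℕ, 1 ≤ N →
      ({n : ℕ | 1 ≤ n ∧ n ≤ N ∧ PoorG δ ε n}.ncard : ℝ) ≤ C * (N : ℝ) ^ ε := by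
  classical
  have hset : ∀ N : ℕ, {n : ℕ | 1 ≤ n ∧ n ≤ N ∧ PoorG δ ε n}.ncard =
      #((Icc 1 N).filter (PoorG δ ε)) := by
    intro N
    rw [← Set.ncard_coe_finset]
    congr 1
    ext m
    rw [mem_coe, mem_filter, mem_Icc, and_assoc]
    rfl
  suffices hmain : ∃ C : ℝ, ∀ N : ℕ, 1 ≤ N →
      (#((Icc 1 N).filter (PoorG δ ε)) : ℝ) ≤ C * (N : ℝ) ^ ε by
    obtain ⟨C, hC⟩ := hmain
    refine ⟨C, fun N hN => ?_⟩
    rw [hset]
    exact hC N hN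
  have hε0 : 0 < ε := by linarith
  rcases lt_or_ge 1 ε with hε1 | hε1
  · refine ⟨1, fun N hN => ?_⟩
    have hN1 : (1 : ℝ) ≤ (N : ℝ) := by exact_mod_cast hN
    have h1 : #((Icc 1 N).filter (PoorG δ ε)) ≤ N := by
      refine (card_filter_le _ _).trans ?_
      rw [Nat.card_Icc]
      omega
    calc (#((Icc 1 N).filter (PoorG δ ε)) : ℝ) ≤ (N : ℝ) := by exact_mod_cast h1
      _ = (N : ℝ) ^ (1 : ℝ) := (Real.rpow_one _).symm
      _ ≤ (N : ℝ) ^ ε := Real.rpow_le_rpow_of_exponent_le hN1 hε1.le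
      _ = 1 * (N : ℝ) ^ ε := (one_mul _).symm
  · obtain ⟨N0, hN0⟩ := hb hε1
    refine dyad (PoorG δ ε) hε0 (by norm_num : (0 : ℝ) ≤ 2) (max N0 2) fun M hM => ?_
    have hM0 : N0 ≤ M := le_trans (le_max_left _ _) hM
    have hM2 : 2 ≤ M := le_trans (le_max_right _ _) hM
    -- the positions
    have hch : ∀ n : ℕ, ∃ x : ℕ, PoorG δ ε n → (n ^ 2 ≤ x + n ∧ x ≤ n ^ 2 + n ∧
        ∃ L : ℝ, (n : ℝ) ^ (1 - δ) ≤ L ∧
        ¬ ((n : ℝ) ^ (1 - ε) ≤ ({z : ℕ | x < z ∧ (z : ℝ) ≤ (x : ℝ) + L ∧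
          Even (ArithmeticFunction.cardFactors z)}.ncard : ℝ) ∧
        (n : ℝ) ^ (1 - ε) ≤ ({z : ℕ | x < z ∧ (z : ℝ) ≤ (x : ℝ) + L ∧
          Odd (ArithmeticFunction.cardFactors z)}.ncard : ℝ))) := by
      intro n
      by_cases hn : PoorG δ ε n
      · obtain ⟨x, hx⟩ := hn
        exact ⟨x, fun _ => hx⟩
      · exact ⟨0, fun hc => absurd hc hn⟩
    choose pos hpos using hch
    have hclass : ∀ r : ℕ, (#(((Ioc M (2 * M)).filter (PoorG δ ε)).filter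
        fun n => n % 2 = r) : ℝ) ≤ (M : ℝ) ^ ε := by
      intro r
      obtain ⟨S, hS⟩ : ∃ S, S = ((Ioc M (2 * M)).filter (PoorG δ ε)).filter
        fun n => n % 2 = r := ⟨_, rfl⟩
      have hmem : ∀ n ∈ S, M < n ∧ n ≤ 2 * M ∧ PoorG δ ε n ∧ n % 2 = r := by
        intro n hn
        rw [hS, mem_filter, mem_filter, mem_Ioc] at hn
        exact ⟨hn.1.1.1, hn.1.1.2, hn.1.2, hn.2⟩
      have hsep : ∀ n ∈ S, ∀ n' ∈ S, n < n' → pos n + M ≤ pos n' := by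
        intro n hn n' hn' hlt
        obtain ⟨a1, a2, a3, a4⟩ := hmem n hn
        obtain ⟨b1, b2, b3, b4⟩ := hmem n' hn'
        exact sep_pos a1 hlt (a4.trans b4.symm) (hpos n a3).2.1 (hpos n' b3).1
      have hinj : Set.InjOn pos (S : Set ℕ) := by
        intro n hn n' hn' heq
        rw [mem_coe] at hn hn'
        rcases lt_trichotomy n n' with hlt | hlt | hlt
        · have := hsep n hn n' hn' hlt
          omega
        · exact hlt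
        · have := hsep n' hn' n hn hlt
          omega
      rw [← hS, ← card_image_of_injOn hinj]
      refine hN0 M hM0 (S.image pos) ?_ ?_ ?_
      · intro x hx
        obtain ⟨n, hn, rfl⟩ := mem_image.1 hx
        obtain ⟨a1, a2, a3, -⟩ := hmem n hn
        obtain ⟨p1, p2, -⟩ := hpos n a3
        constructor
        · obtain ⟨d, hd⟩ : ∃ d, n = M + 1 + d := ⟨n - (M + 1), by omega⟩
          rw [hd] at p1 ⊢
          nlinarith
        · have h3 : n ^ 2 ≤ (2 * M) ^ 2 := Nat.pow_le_pow_left a2 2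
          nlinarith
      · intro x hx y hy hxy
        obtain ⟨n, hn, rfl⟩ := mem_image.1 hx
        obtain ⟨n', hn', rfl⟩ := mem_image.1 hy
        rcases lt_trichotomy n n' with hlt | hlt | hlt
        · exact hsep n hn n' hn' hlt
        · rw [hlt] at hxy
          omega
        · have := hsep n' hn' n hn hlt
          omega
      · intro x hx
        obtain ⟨n, hn, rfl⟩ := mem_image.1 hx
        obtain ⟨a1, a2, a3, -⟩ := hmem n hn
        obtain ⟨-, -, L, hL, hx'⟩ := hpos n a3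
        exact poor_sign (by linarith) hε1 hε0.le a1 a2 hL hx'
    have hsplit : #((Ioc M (2 * M)).filter (PoorG δ ε)) ≤
        #(((Ioc M (2 * M)).filter (PoorG δ ε)).filter fun n => n % 2 = 0) +
        #(((Ioc M (2 * M)).filter (PoorG δ ε)).filter fun n => n % 2 = 1) := by
      refine le_trans (card_le_card ?_) (card_union_le _ _)
      intro n hn
      rw [mem_union, mem_filter, mem_filter (s := (Ioc M (2 * M)).filter (PoorG δ ε))]
      rcases Nat.mod_two_eq_zero_or_one n with h3 | h3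
      · exact Or.inl ⟨hn, h3⟩
      · exact Or.inr ⟨hn, h3⟩
    have h0 := hclass 0
    have h1 := hclass 1
    have h2 : (#((Ioc M (2 * M)).filter (PoorG δ ε)) : ℝ) ≤
        #(((Ioc M (2 * M)).filter (PoorG δ ε)).filter fun n => n % 2 = 0) +
        #(((Ioc M (2 * M)).filter (PoorG δ ε)).filter fun n => n % 2 = 1) := by
      exact_mod_cast hsplit
    linarith

end Pool.Agent.Helper21.QS
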